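import Pool.Agent.V5helper30.W3.Stm

set_option autoImplicit false

/-!
# Project W3, job ORB: sorted and strictly sorted triples
-/

namespace Pool.Agent.V5helper9.W3

open Pool.Agent.V5helper30.W3 Finset

theorem mem_W {d k i a b c : ℕ} : (a, b, c) ∈ W d k i ↔
    a + b + c = i ∧ a / d + b / d + c / d < k := by
  unfold W
  rw [mem_filter, mem_product, mem_product, mem_range, mem_range, mem_range]
  constructor
  · rintro ⟨-, h⟩
    exact h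
  · rintro ⟨h1, h2⟩
    exact ⟨⟨by show a < i + 1; omega, by show b < i + 1; omega, by show c < i + 1; omega⟩, h1, h2⟩

theorem swap12 (d k i : ℕ) (F : ℕ × ℕ × ℕ → ℕ) :
    ∑ p ∈ W d k i, F (p.2.1, p.1, p.2.2) = ∑ p ∈ W d k i, F p := by
  refine Finset.sum_nbij' (fun p => (p.2.1, p.1, p.2.2)) (fun p => (p.2.1, p.1, p.2.2)) ?_ ?_ ?_ ?_ ?_
  · rintro ⟨a, b, c⟩ h
    rw [mem_W] at h
    show (b, a, c) ∈ W d k i
    rw [mem_W]
    omega
  · rintro ⟨a, b, c⟩ h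
    rw [mem_W] at h
    show (b, a, c) ∈ W d k i
    rw [mem_W]
    omega
  · rintro ⟨a, b, c⟩ _
    rfl
  · rintro ⟨a, b, c⟩ _
    rfl
  · rintro ⟨a, b, c⟩ _
    rfl

theorem swap23 (d k i : ℕ) (F : ℕ × ℕ × ℕ → ℕ) :
    ∑ p ∈ W d k i, F (p.1, p.2.2, p.2.1) = ∑ p ∈ W d k i, F p := by
  refine Finset.sum_nbij' (fun p => (p.1, p.2.2, p.2.1)) (fun p => (p.1, p.2.2, p.2.1)) ?_ ?_ ?_ ?_ ?_
  · rintro ⟨a, b, c⟩ h
    rw [mem_W] at h
    show (a, c, b) ∈ W d k i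
    rw [mem_W]
    omega
  · rintro ⟨a, b, c⟩ h
    rw [mem_W] at h
    show (a, c, b) ∈ W d k i
    rw [mem_W]
    omega
  · rintro ⟨a, b, c⟩ _
    rfl
  · rintro ⟨a, b, c⟩ _
    rfl
  · rintro ⟨a, b, c⟩ _
    rfl

/-- the sum over the six permutations -/
theorem six (d k i : ℕ) (G : ℕ × ℕ × ℕ → ℕ) :
    6 * ∑ p ∈ W d k i, G p = ∑ p ∈ W d k i, (G (p.1, p.2.1, p.2.2) + G (p.2.1, p.1, p.2.2) +
      G (p.1, p.2.2, p.2.1) + G (p.2.2, p.1, p.2.1) + G (p.2.1, p.2.2, p.1) +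
      G (p.2.2, p.2.1, p.1)) := by
  have h0 : ∑ p ∈ W d k i, G (p.1, p.2.1, p.2.2) = ∑ p ∈ W d k i, G p := rfl
  have h1 : ∑ p ∈ W d k i, G (p.2.1, p.1, p.2.2) = ∑ p ∈ W d k i, G p := swap12 d k i G
  have h2 : ∑ p ∈ W d k i, G (p.1, p.2.2, p.2.1) = ∑ p ∈ W d k i, G p := swap23 d k i G
  have h3 : ∑ p ∈ W d k i, G (p.2.2, p.1, p.2.1) = ∑ p ∈ W d k i, G p := by
    rw [← h1]
    exact swap23 d k i (fun p => G (p.2.1, p.1, p.2.2))
  have h4 : ∑ p ∈ W d k i, G (p.2.1, p.2.2, p.1) = ∑ p ∈ W d k i, G p := by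
    rw [← h2]
    exact swap12 d k i (fun p => G (p.1, p.2.2, p.2.1))
  have h5 : ∑ p ∈ W d k i, G (p.2.2, p.2.1, p.1) = ∑ p ∈ W d k i, G p := by
    rw [← h4]
    exact swap23 d k i (fun p => G (p.2.1, p.2.2, p.1))
  rw [sum_add_distrib, sum_add_distrib, sum_add_distrib, sum_add_distrib, sum_add_distrib,
    h0, h1, h2, h3, h4, h5]
  ring

theorem three (d k i : ℕ) (E : ℕ × ℕ × ℕ → ℕ) :
    3 * ∑ p ∈ W d k i, E p = ∑ p ∈ W d k i, (E (p.1, p.2.1, p.2.2) +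
      E (p.1, p.2.2, p.2.1) + E (p.2.1, p.2.2, p.1)) := by
  have h0 : ∑ p ∈ W d k i, E (p.1, p.2.1, p.2.2) = ∑ p ∈ W d k i, E p := rfl
  have h2 : ∑ p ∈ W d k i, E (p.1, p.2.2, p.2.1) = ∑ p ∈ W d k i, E p := swap23 d k i E
  have h4 : ∑ p ∈ W d k i, E (p.2.1, p.2.2, p.1) = ∑ p ∈ W d k i, E p := by
    rw [← h2]
    exact swap12 d k i (fun p => E (p.1, p.2.2, p.2.1))
  rw [sum_add_distrib, sum_add_distrib, h0, h2, h4]
  ring

theorem point1 (a b c : ℕ) :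
    ((if b ≤ a ∧ c ≤ b then 1 else 0) + (if a ≤ b ∧ c ≤ a then 1 else 0) +
      (if c ≤ a ∧ b ≤ c then 1 else 0) + (if a ≤ c ∧ b ≤ a then 1 else 0) +
      (if c ≤ b ∧ a ≤ c then 1 else 0) + (if b ≤ c ∧ a ≤ b then 1 else 0) : ℕ) =
    1 + ((if a = b then 1 else 0) + (if a = c then 1 else 0) + (if b = c then 1 else 0)) +
      2 * (if a = b ∧ b = c then 1 else 0) := by
  split_ifs <;> omega

theorem point2 (a b c : ℕ) :
    ((if b < a ∧ c < b then 1 else 0) + (if a < b ∧ c < a then 1 else 0) +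
      (if c < a ∧ b < c then 1 else 0) + (if a < c ∧ b < a then 1 else 0) +
      (if c < b ∧ a < c then 1 else 0) + (if b < c ∧ a < b then 1 else 0) : ℕ) +
    ((if a = b then 1 else 0) + (if a = c then 1 else 0) + (if b = c then 1 else 0)) =
    1 + 2 * (if a = b ∧ b = c then 1 else 0) := by
  split_ifs <;> omega

/-- Job ORB. -/
theorem t_ORB : S_ORB := by
  intro d k i
  have e1 : ff d k i = ∑ p ∈ W d k i, if p.1 = p.2.1 then 1 else 0 := by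
    unfold ff
    rw [card_filter]
  have e2 : ee d k i = ∑ p ∈ W d k i, if p.1 = p.2.1 ∧ p.2.1 = p.2.2 then 1 else 0 := by
    unfold ee
    rw [card_filter]
  have e3 : oo d k i = ∑ p ∈ W d k i, if p.2.1 ≤ p.1 ∧ p.2.2 ≤ p.2.1 then 1 else 0 := by
    unfold oo
    rw [card_filter]
  have e4 : ss d k i = ∑ p ∈ W d k i, if p.2.1 < p.1 ∧ p.2.2 < p.2.1 then 1 else 0 := by
    unfold ss
    rw [card_filter]
  have e5 := three d k i (fun p => if p.1 = p.2.1 then 1 else 0)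
  have e6 := six d k i (fun p => if p.2.1 ≤ p.1 ∧ p.2.2 ≤ p.2.1 then 1 else 0)
  have e7 := six d k i (fun p => if p.2.1 < p.1 ∧ p.2.2 < p.2.1 then 1 else 0)
  rw [← e1] at e5
  rw [← e3] at e6
  rw [← e4] at e7
  rw [e5, e6, e7, e2, card_eq_sum_ones, mul_sum]
  constructor
  · rw [← sum_add_distrib, ← sum_add_distrib]
    exact sum_congr rfl fun p _ => point1 p.1 p.2.1 p.2.2
  · rw [← sum_add_distrib, ← sum_add_distrib]
    exact sum_congr rfl fun p _ => point2 p.1 p.2.1 p.2.2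

end Pool.Agent.V5helper9.W3
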